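import Pool.Agent.W876.WK.Up

/-!
# Adding a Cohen real never adds a weak Kurepa tree at `ω₁`

Let `p` be a Cohen condition forcing that `T` is a weak Kurepa tree. Cohen forcing is countable, so
for each of the `ω₂` branches uncountably many of its nodes are decided by one and the same
condition, and one condition `r ≤ p` works for `ω₂` of the branches. The nodes whose height is
decided by `r`, ordered by `r ⊩ s < t`, form a tree of the ground model, in which the decided nodes
of each of these branches are cofinal in a branch, and different names give different branches.
-/

set_option autoImplicit false

namespace Pool.Agent.Results.MP_5ef322_lc.CohenWeakKurepa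

open Pool.Agent.W876.WK

/-- Cohen forcing preserves cardinals, and a Cohen condition forces that there is a weak Kurepa
tree at `ω₁` if and only if there is one in the ground model. -/
theorem result : (∀ p : Cohen, p ∈ CardinalsPreserved Cohen) ∧
    ∀ p : Cohen, p ∈ ForcedWeakKurepa Cohen ↔ WeakKurepa :=
  main

end Pool.Agent.Results.MP_5ef322_lc.CohenWeakKurepa
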